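import Pool.Agent.Helper68.VN.GoalsA

/-!
# Packet PG-CNTB (MP_a41896_nt): the number of terms
-/

set_option autoImplicit false

namespace Pool.Agent.Helper95.VN

open Pool.Agent.Helper68.VN
open Pool.Agent.Helper77.SGC (N0)

theorem le_pow_self' {x q : ℕ} (hx : 1 ≤ x) (hq : 1 ≤ q) : x ≤ x ^ q := by
  calc x = x ^ 1 := (pow_one x).symm
    _ ≤ x ^ q := Nat.pow_le_pow_right hx hq

theorem n0_le (M e : ℕ) : N0 M e + 1 ≤ 4 ^ e * (2 * M + 2) := by
  have h4 : 1 ≤ 4 ^ e := Nat.one_le_pow _ _ (by norm_num)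
  unfold N0
  nlinarith

theorem prod4 (A B C D q : ℕ) : (A * B * (C * D)) ^ q = A ^ q * B ^ q * (C ^ q * D ^ q) := by
  rw [mul_pow, mul_pow, mul_pow]

/-- one block -/
theorem blk_bound (m M c e : ℕ) :
    2 ^ m * c ^ (N0 M e + 1) * ((4 ^ e * (M + 1)) ^ m * ((2 * M + 1) * (N0 M e + 1)) ^ m) ≤
      (2 ^ m * (c + 1) ^ (2 * M + 2) * ((4 * (M + 1)) ^ m *
        ((2 * M + 1) * (4 * (2 * M + 2))) ^ m)) ^ 4 ^ e := by
  have h4 : 1 ≤ 4 ^ e := Nat.one_le_pow _ _ (by norm_num)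
  have hN := n0_le M e
  have hq : 4 ^ e ≤ 4 ^ 4 ^ e :=
    Nat.pow_le_pow_right (by norm_num) (Nat.lt_pow_self (by norm_num)).le
  have hA : 2 ^ m ≤ (2 ^ m) ^ 4 ^ e := le_pow_self' (Nat.one_le_pow _ _ (by norm_num)) h4
  have hB : c ^ (N0 M e + 1) ≤ ((c + 1) ^ (2 * M + 2)) ^ 4 ^ e := by
    calc c ^ (N0 M e + 1) ≤ (c + 1) ^ (N0 M e + 1) := Nat.pow_le_pow_left (Nat.le_succ c) _
      _ ≤ (c + 1) ^ (4 ^ e * (2 * M + 2)) := Nat.pow_le_pow_right (Nat.succ_pos c) hN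
      _ = ((c + 1) ^ (2 * M + 2)) ^ 4 ^ e := by rw [← pow_mul, mul_comm (2 * M + 2)]
  have hC : (4 ^ e * (M + 1)) ^ m ≤ ((4 * (M + 1)) ^ m) ^ 4 ^ e := by
    rw [← pow_mul, mul_comm m, pow_mul]
    apply Nat.pow_le_pow_left
    rw [mul_pow 4 (M + 1) (4 ^ e)]
    exact Nat.mul_le_mul hq (le_pow_self' (by omega) h4)
  have hD : ((2 * M + 1) * (N0 M e + 1)) ^ m ≤
      (((2 * M + 1) * (4 * (2 * M + 2))) ^ m) ^ 4 ^ e := by
    rw [← pow_mul, mul_comm m, pow_mul]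
    apply Nat.pow_le_pow_left
    rw [mul_pow (2 * M + 1) _ (4 ^ e), mul_pow 4 (2 * M + 2) (4 ^ e)]
    apply Nat.mul_le_mul (le_pow_self' (by omega) h4)
    exact hN.trans (Nat.mul_le_mul hq (le_pow_self' (by omega) h4))
  rw [prod4]
  exact Nat.mul_le_mul (Nat.mul_le_mul hA hB) (Nat.mul_le_mul hC hD)

theorem nat_bound (n m M δ c : ℕ) (hn : 1 ≤ n) (e : Fin n → ℕ) (t : Fin n → ℕ)
    (ht : ∀ j, t j ≤ c ^ (N0 M (e j) + 1)) :
    (2 ^ m) ^ n * (∏ j, t j) * (((∏ j, (4 ^ e j * (M + 1)) ^ m) * δ ^ m) *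
      ∏ j, ((2 * M + 1) * (N0 M (e j) + 1)) ^ m) ≤
    ((2 ^ m * (c + 1) ^ (2 * M + 2) * ((4 * (M + 1)) ^ m *
        ((2 * M + 1) * (4 * (2 * M + 2))) ^ m)) * (δ + 1) ^ m) ^ sqB e := by
  have hsq : 1 ≤ sqB e := by
    unfold sqB
    have : ∑ j : Fin n, 1 ≤ ∑ j, 4 ^ e j :=
      Finset.sum_le_sum fun j _ => Nat.one_le_pow _ _ (by norm_num)
    simp only [Finset.sum_const, Finset.card_univ, Fintype.card_fin, smul_eq_mul,
      mul_one] at this
    omega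
  have h2 : (2 ^ m) ^ n = ∏ _j : Fin n, 2 ^ m := by simp
  calc (2 ^ m) ^ n * (∏ j, t j) * (((∏ j, (4 ^ e j * (M + 1)) ^ m) * δ ^ m) *
      ∏ j, ((2 * M + 1) * (N0 M (e j) + 1)) ^ m)
      = (∏ j, (2 ^ m * t j * ((4 ^ e j * (M + 1)) ^ m *
          ((2 * M + 1) * (N0 M (e j) + 1)) ^ m))) * δ ^ m := by
        rw [h2, Finset.prod_mul_distrib, Finset.prod_mul_distrib, Finset.prod_mul_distrib]
        ring
    _ ≤ (∏ j, (2 ^ m * (c + 1) ^ (2 * M + 2) * ((4 * (M + 1)) ^ m *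
        ((2 * M + 1) * (4 * (2 * M + 2))) ^ m)) ^ 4 ^ e j) * ((δ + 1) ^ m) ^ sqB e := by
        apply Nat.mul_le_mul
        · apply Finset.prod_le_prod'
          intro j _
          exact (Nat.mul_le_mul_right _ (Nat.mul_le_mul_left _ (ht j))).trans
            (blk_bound m M c (e j))
        · exact (Nat.pow_le_pow_left (Nat.le_succ δ) m).trans
            (le_pow_self' (Nat.one_le_pow _ _ (Nat.succ_pos δ)) hsq)
    _ = _ := by
        rw [Finset.prod_pow_eq_pow_sum, mul_pow _ ((δ + 1) ^ m)]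
        rfl

/-- PACKET CNTB. -/
theorem t_CNTB : CNTB := by
  intro σ _ _ n M δ c hn
  refine ⟨(((2 ^ Fintype.card σ * (c + 1) ^ (2 * M + 2) * ((4 * (M + 1)) ^ Fintype.card σ *
        ((2 * M + 1) * (4 * (2 * M + 2))) ^ Fintype.card σ)) *
          (δ + 1) ^ Fintype.card σ : ℕ) : ℝ), ?_, ?_⟩
  · have : 1 ≤ (2 ^ Fintype.card σ * (c + 1) ^ (2 * M + 2) * ((4 * (M + 1)) ^ Fintype.card σ *
        ((2 * M + 1) * (4 * (2 * M + 2))) ^ Fintype.card σ)) *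
          (δ + 1) ^ Fintype.card σ :=
      Nat.one_le_iff_ne_zero.2 (by positivity)
    exact_mod_cast this
  · intro e T _ hT
    have h := nat_bound n (Fintype.card σ) M δ c hn e (fun j => Fintype.card (T j)) hT
    have h1 : Nat.card (Fin n → σ → Fin 2) = (2 ^ Fintype.card σ) ^ n := by
      rw [Nat.card_eq_fintype_card]
      simp
    have h2 : Nat.card (∀ j, T j) = ∏ j, Fintype.card (T j) := by
      rw [Nat.card_eq_fintype_card, Fintype.card_pi]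
    have h3 : Nat.card (Ix σ n M δ e) =
        (∏ j, (4 ^ e j * (M + 1)) ^ Fintype.card σ) * δ ^ Fintype.card σ := by
      rw [Nat.card_eq_fintype_card]
      simp only [Ix, Ax, Fintype.card_prod, Fintype.card_pi, Fintype.card_fin,
        Finset.prod_const, Finset.card_univ]
    rw [h1, h2, h3]
    exact_mod_cast h

end Pool.Agent.Helper95.VN
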