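import Pool.Agent.Helper68.VN.GoalsN
import Pool.Agent.Helper2.SGT.NQR

/-!
# Packet PG-NRB (MP_a41896_nt): the norm of `redV F`
(adapted from `Pool/Agent/Helper2/SGT/NQR.lean`)
-/

set_option autoImplicit false

open MvPolynomial

namespace Pool.Agent.Helper95.VN

open WeierstrassCurve Height
open Pool.Agent.Helper29.BL Pool.Agent.Helper92.Ru Pool.Agent.Helper42.SG
open Pool.Agent.Helper65.SG (NPol FRPO)
open Pool.Agent.Helper68.VN
open Pool.Agent.Helper2.SGT (nf_pow nf_prod nf_sum nf_sum_max nf_Bf rpw_one)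

/-- PACKET NRB. -/
theorem t_NRB (hF : FRPO) : NRB := by
  intro K _ _ V _ w
  have hc1 : ∀ v : AbsoluteValue K ℝ, ∀ h : V, 1 ≤ cst v 8 * bet (w h) v := fun v h =>
    one_le_mul_of_one_le_of_one_le (one_le_cst v (by norm_num)) (one_le_bet _ v)
  refine ⟨fun v => ∏ h : V, (cst v 8 * bet (w h) v), ⟨?_, ?_⟩, ?_⟩
  · intro v
    have h1 : ∏ _h : V, (1 : ℝ) ≤ ∏ h : V, (cst v 8 * bet (w h) v) :=
      Finset.prod_le_prod (fun _ _ => zero_le_one) fun h _ => hc1 v h
    rwa [Finset.prod_const_one] at h1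
  · have hfs : FS (K := K) (fun v => ∑ h : V, Real.log (cst v 8 * bet (w h) v)) := by
      refine FS.sum Finset.univ fun h _ => ?_
      refine ((FS_log_cst (K := K) 8).add (FS_log_bet (w h))).mono fun v _ hv => ?_
      rw [Real.log_mul (cst_pos v (by norm_num)).ne' (bet_pos _ v).ne']
      exact hv
    refine hfs.mono fun v _ hv => ?_
    rw [Real.log_prod fun h _ => (lt_of_lt_of_le one_pos (hc1 v h)).ne']
    exact hv
  · intro F v T k hFT hm
    obtain ⟨hN, hX, -⟩ := hF K v V
    have hco : ∀ m, v (coeff m F) ≤ T := fun m => (hF K v (V ⊕ V)).2.2 F T m hFT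
    have hT : 0 ≤ T := hFT.1
    have hB1 : (0 : ℝ) ≤ (∏ h : V, (cst v 8 * bet (w h) v)) ^ k :=
      pow_nonneg (Finset.prod_nonneg fun h _ => zero_le_one.trans (hc1 v h)) k
    -- the terms
    have hterm : ∀ m ∈ F.support, NPol v (C (coeff m F) * ∏ h : V,
        (X h ^ m (Sum.inl h) * Bf ((w h).map (algebraMap K (MvPolynomial V K))) (X h) ^
          (m (Sum.inr h) / 2)))
        (v (coeff m F) * (∏ h : V, (cst v 8 * bet (w h) v)) ^ k) := by
      intro m hms
      have h1 : ∀ h ∈ (Finset.univ : Finset V), NPol v (X h ^ m (Sum.inl h) *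
          Bf ((w h).map (algebraMap K (MvPolynomial V K))) (X h) ^ (m (Sum.inr h) / 2))
          ((cst v 8 * bet (w h) v) ^ k) := by
        intro h _
        have h2 := hN.mul _ _ _ _ (nf_pow hN (hX h) (m (Sum.inl h)))
          (nf_pow hN (nf_Bf hN (w h) (X h) (hX h)) (m (Sum.inr h) / 2))
        refine hN.mono _ _ _ h2 ?_
        rw [one_pow, one_mul]
        have h3 : m (Sum.inr h) / 2 ≤ k := by
          have := hm m hms h
          omega
        exact pow_le_pow_right₀ (hc1 v h) h3
      have h5 := nf_prod hN Finset.univ _ (fun h => (cst v 8 * bet (w h) v) ^ k) h1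
      rw [Finset.prod_pow] at h5
      have h6 := hN.const (coeff m F)
      rw [MvPolynomial.algebraMap_eq] at h6
      exact hN.mul _ _ _ _ h6 h5
    unfold redV
    by_cases hv : IsNonarchimedean v
    · refine nf_sum_max hN hv F.support _ _ (mul_nonneg hT hB1) fun m hms => ?_
      exact hN.mono _ _ _ (hterm m hms) (mul_le_mul_of_nonneg_right (hco m) hB1)
    · refine hN.mono _ _ _ (nf_sum hN F.support _ _ hterm) ?_
      rw [← Finset.sum_mul]
      refine mul_le_mul_of_nonneg_right ?_ hB1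
      have h1 := hFT.2.2 hv F.support
      refine le_trans (le_of_eq (Finset.sum_congr rfl fun m _ => ?_)) h1
      rw [rpw_one, mul_one, MvPolynomial.coeff_coe]

end Pool.Agent.Helper95.VN
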