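import Pool.Agent.Helper68.VN.GoalsT

/-!
# Packet PG-TAYN (MP_a41896_nt): the Taylor frame
-/

set_option autoImplicit false

open MvPolynomial

namespace Pool.Agent.Helper95.VN

open WeierstrassCurve Height
open Pool.Agent.Helper29.BL Pool.Agent.Helper92.Ru Pool.Agent.Helper42.SG
open Pool.Agent.Helper68.VN

theorem nps_mono {K : Type} [Field K] {v : AbsoluteValue K ℝ} {τ : Type} {r : τ → ℝ}
    {f : MvPowerSeries τ K} {S T : ℝ} (h : NPS v r f S) (hST : S ≤ T) : NPS v r f T :=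
  ⟨h.1.trans hST, fun hv α => (h.2.1 hv α).trans hST, fun hv s => (h.2.2 hv s).trans hST⟩

theorem one_le_Mv {K : Type} [Field K] (v : AbsoluteValue K ℝ) (a : K) : 1 ≤ Mv v a :=
  le_max_left _ _

theorem rho_pos_le {K : Type} [Field K] {σ : Type} [Fintype σ] {J : Type} [Fintype J] (D : ℕ)
    (f : J → MvPolynomial σ K) (v : AbsoluteValue K ℝ) (x : σ → K)
    (hx : ∃ k, eval x (f k) ≠ 0) : 0 < rho D f v x ∧ rho D f v x ≤ 1 := by
  obtain ⟨k, hk⟩ := hx
  refine ⟨?_, min_le_left _ _⟩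
  unfold rho
  apply lt_min one_pos
  apply div_pos
  · have h1 : v (eval x (f k)) ≤ ⨆ j, v (eval x (f j)) :=
      le_ciSup (f := fun j => v (eval x (f j))) (Set.finite_range _).bddAbove k
    exact lt_of_lt_of_le (v.pos hk) h1
  · apply pow_pos
    exact Finset.prod_pos fun i _ => lt_of_lt_of_le one_pos (one_le_Mv v (x i))

/-- PACKET TAYN. -/
theorem t_TAYN (hX : TAYX) (hF : TAYF) : TAYN := by
  intro K _ _ σ _ _ _ W J _ D f hD hdeg
  obtain ⟨B, hB, hXB⟩ := hX K σ W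
  obtain ⟨B', hB', hBB, hF'⟩ := hF K σ W J D f hdeg B hB
  refine ⟨B', hB', ?_⟩
  intro n ξ ψ hψ hk
  obtain ⟨X, Ψ, hT, hN⟩ := hXB n ξ ψ hψ
  refine ⟨X, Ψ, hT, fun v => ?_⟩
  have hB1 : 1 ≤ B v := hB.one_le v
  have hB1' : 1 ≤ B' v := hB'.one_le v
  have hrho : ∀ j, 0 < rho D f v (ξ j) ∧ rho D f v (ξ j) ≤ 1 :=
    fun j => rho_pos_le D f v (ξ j) (hk j)
  have hMpos : ∀ a : K, 0 < Mv v a := fun a => lt_of_lt_of_le one_pos (one_le_Mv v a)
  have hrad : ∀ h, 0 < rad D f (B' v) v ξ h := by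
    intro h
    unfold rad
    exact div_pos (hrho h.1).1 (mul_pos (by linarith) (pow_pos (hMpos _) 2))
  have hrad2 : ∀ h, rad D f (B' v) v ξ h ≤ 1 / (B v * Mv v (ξ h.1 h.2) ^ 2) := by
    intro h
    unfold rad
    have hM2 : 0 < Mv v (ξ h.1 h.2) ^ 2 := pow_pos (hMpos _) 2
    apply div_le_div₀ zero_le_one (hrho h.1).2 (mul_pos (by linarith) hM2)
    exact mul_le_mul_of_nonneg_right (hBB v) hM2.le
  refine ⟨hrho, hrad, fun j i => ?_, fun j k => ?_⟩
  · obtain ⟨h1, h2⟩ := hN v _ (fun h => ⟨hrad h, hrad2 h⟩) j i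
    exact ⟨nps_mono h1 (mul_le_mul_of_nonneg_right (hBB v) (hMpos _).le),
      nps_mono h2 (mul_le_mul_of_nonneg_right (hBB v) (pow_pos (hMpos _) 2).le)⟩
  · refine nps_mono (hF' n ξ ψ X Ψ hT (fun j i => (hψ j i).1) hk v j k) ?_
    apply mul_le_mul_of_nonneg_left _ (hrho j).1.le
    rw [Finset.prod_pow, Finset.prod_mul_distrib, mul_pow]
    apply mul_le_mul_of_nonneg_right _
      (pow_nonneg (Finset.prod_nonneg fun i _ => (hMpos _).le) _)
    rw [Finset.prod_const, ← pow_mul, Finset.card_univ]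
    exact le_self_pow₀ hB1' (Nat.mul_ne_zero Fintype.card_ne_zero (by omega))

end Pool.Agent.Helper95.VN
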